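import Mathlib

namespace Pool.Agent.Results.MP_8f6a5a_an.No

open Matrix Complex Filter Topology

/-- spectral radius: the largest modulus of a complex eigenvalue -/
noncomputable def rho {n : ℕ} (M : Matrix (Fin n) (Fin n) ℝ) : ENNReal :=
  spectralRadius ℂ (M.map (algebraMap ℝ ℂ))

lemma mem_spec {n : ℕ} (M : Matrix (Fin n) (Fin n) ℂ) (s : ℂ) :
    s ∈ spectrum ℂ M ↔ (s • (1 : Matrix (Fin n) (Fin n) ℂ) - M).det = 0 := by
  rw [spectrum.mem_iff, Matrix.isUnit_iff_isUnit_det, isUnit_iff_ne_zero, not_not,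
    Algebra.algebraMap_eq_smul_one]

lemma rho_one {n : ℕ} (hn : 0 < n) (P : Matrix (Fin n) (Fin n) ℝ) (v : Fin n → ℝ)
    (hP : ∀ i j, 0 ≤ P i j) (hv : ∀ i, 0 < v i) (hPv : ∀ i, ∑ j, P i j * v j = v i) :
    rho P = 1 := by
  apply le_antisymm
  · unfold rho spectralRadius
    refine iSup₂_le fun s hs => ?_
    rw [mem_spec, ← Matrix.exists_mulVec_eq_zero_iff] at hs
    obtain ⟨w, hw0, hw⟩ := hs
    haveI : Nonempty (Fin n) := ⟨⟨0, hn⟩⟩
    obtain ⟨i, -, hi⟩ := Finset.exists_max_image Finset.univ (fun j => ‖w j‖ / v j)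
      Finset.univ_nonempty
    have hM : 0 < ‖w i‖ / v i := by
      obtain ⟨j, hj⟩ := Function.ne_iff.1 hw0
      exact lt_of_lt_of_le (div_pos (norm_pos_iff.2 hj) (hv j)) (hi j (Finset.mem_univ _))
    have h1 : s * w i = ∑ j, (P i j : ℂ) * w j := by
      have := congrFun hw i
      rw [Matrix.sub_mulVec, Matrix.smul_mulVec, Matrix.one_mulVec] at this
      simp only [Pi.sub_apply, Pi.smul_apply, smul_eq_mul, Pi.zero_apply] at this
      rw [sub_eq_zero.1 this]
      simp [Matrix.mulVec, dotProduct]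
    have h2 : ‖s‖ * ‖w i‖ ≤ ‖w i‖ := by
      rw [← norm_mul, h1]
      calc ‖∑ j, (P i j : ℂ) * w j‖ ≤ ∑ j, ‖(P i j : ℂ) * w j‖ := norm_sum_le _ _
        _ ≤ ∑ j, ‖w i‖ / v i * (P i j * v j) := by
          refine Finset.sum_le_sum fun j _ => ?_
          rw [norm_mul, Complex.norm_real, Real.norm_of_nonneg (hP i j)]
          have := (div_le_iff₀ (hv j)).1 (hi j (Finset.mem_univ _))
          calc P i j * ‖w j‖ ≤ P i j * (‖w i‖ / v i * v j) :=
                mul_le_mul_of_nonneg_left this (hP i j)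
            _ = _ := by ring
        _ = ‖w i‖ := by rw [← Finset.mul_sum, hPv, div_mul_cancel₀ _ (hv i).ne']
    have h3 : 0 < ‖w i‖ := by
      by_contra h
      have : ‖w i‖ = 0 := le_antisymm (not_lt.1 h) (norm_nonneg _)
      rw [this, zero_div] at hM; exact lt_irrefl _ hM
    have h4 : ‖s‖ ≤ 1 := by nlinarith
    exact_mod_cast h4
  · unfold rho spectralRadius
    have : (1 : ℂ) ∈ spectrum ℂ (P.map (algebraMap ℝ ℂ)) := by
      rw [mem_spec, ← Matrix.exists_mulVec_eq_zero_iff]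
      refine ⟨fun j => (v j : ℂ), fun h => ?_, ?_⟩
      · have := congrFun h ⟨0, hn⟩
        simp only [Pi.zero_apply, ofReal_eq_zero] at this
        exact (hv _).ne' this
      · funext i
        rw [Matrix.sub_mulVec, Matrix.smul_mulVec, Matrix.one_mulVec]
        simp only [Pi.sub_apply, Pi.smul_apply, smul_eq_mul, Pi.zero_apply, one_mul]
        rw [sub_eq_zero, ← hPv i]
        simp [Matrix.mulVec, dotProduct]
    refine le_trans ?_ (le_iSup₂ (f := fun k (_ : k ∈ spectrum ℂ (P.map (algebraMap ℝ ℂ))) =>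
      ((‖k‖₊ : NNReal) : ENNReal)) 1 this)
    simp

lemma lt_rho {n : ℕ} (M : Matrix (Fin n) (Fin n) ℝ) (s : ℂ) (h1 : 1 < ‖s‖) (y : Fin n → ℂ)
    (hy : y ≠ 0) (h : ∀ j, ∑ i, y i * (M i j : ℂ) = s * y j) : 1 < rho M := by
  have : s ∈ spectrum ℂ (M.map (algebraMap ℝ ℂ)) := by
    rw [mem_spec, ← Matrix.exists_vecMul_eq_zero_iff]
    refine ⟨y, hy, ?_⟩
    rw [Matrix.vecMul_sub, Matrix.vecMul_smul, Matrix.vecMul_one]
    funext j
    simp only [Pi.sub_apply, Pi.smul_apply, smul_eq_mul, Pi.zero_apply]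
    rw [← h j, sub_eq_zero]
    simp [Matrix.vecMul, dotProduct]
  unfold rho spectralRadius
  refine lt_of_lt_of_le ?_ (le_iSup₂ (f := fun k (_ : k ∈ spectrum ℂ
    (M.map (algebraMap ℝ ℂ))) => ((‖k‖₊ : NNReal) : ENNReal)) s this)
  exact_mod_cast h1

lemma rho_gt {n : ℕ} (P : Matrix (Fin n) (Fin n) ℝ) (hs : P.IsSymm) (c : Fin n → ℝ)
    (hc : ∑ i, c i = 1) (x : Fin n → ℂ) (s κ : ℂ) (hκ : κ ≠ 0) (h1 : 1 < ‖s‖)
    (hx : ∀ i, ∑ j, (P i j : ℂ) * x j = s * x i - κ) (hcx : ∑ i, (c i : ℂ) * x i = 0) :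
    1 < rho ((1 - vecMulVec c 1) * P) := by
  have hc' : ∑ i, (c i : ℂ) = 1 := by exact_mod_cast hc
  have hy : ∑ i, (s * x i - κ) * (c i : ℂ) = -κ := by
    have : ∀ i, (s * x i - κ) * (c i : ℂ) = s * (c i * x i) - κ * c i := fun i => by ring
    simp only [this, Finset.sum_sub_distrib, ← Finset.mul_sum, hcx, hc']; ring
  refine lt_rho _ s h1 (fun j => s * x j - κ) (fun h => ?_) fun j => ?_
  · apply hκ
    have h2 : ∀ i, s * x i - κ = 0 := fun i => congrFun h i
    simp only [h2, zero_mul, Finset.sum_const_zero] at hy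
    exact neg_eq_zero.1 hy.symm
  · have h2 : ∀ i, (((1 - vecMulVec c 1) * P : Matrix (Fin n) (Fin n) ℝ) i j : ℝ)
        = P j i - c i * ∑ l, P j l := by
      intro i
      rw [Matrix.sub_mul, Matrix.one_mul, Matrix.sub_apply, Matrix.mul_apply, hs.apply i j,
        Finset.mul_sum]
      congr 1
      refine Finset.sum_congr rfl fun l _ => ?_
      rw [vecMulVec_apply, hs.apply l j]; simp
    have h3 : ∀ i, (s * x i - κ) * ((P j i - c i * ∑ l, P j l : ℝ) : ℂ)
        = s * (P j i * x i) - κ * P j i - (s * x i - κ) * c i * ∑ l, (P j l : ℂ) := by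
      intro i; push_cast; ring
    rw [Finset.sum_congr rfl fun i _ => by rw [h2 i, h3 i], Finset.sum_sub_distrib,
      Finset.sum_sub_distrib, ← Finset.mul_sum, ← Finset.mul_sum, ← Finset.sum_mul, hy, hx]
    ring

def tri (n : ℕ) (a b : ℕ → ℝ) : Matrix (Fin n) (Fin n) ℝ := fun i j =>
  if i.val = j.val then a i else if i.val + 1 = j.val then b i
  else if j.val + 1 = i.val then b j else 0

lemma tri_row (n : ℕ) (a b : ℕ → ℝ) (x : ℕ → ℂ) (i : Fin n) :
    ∑ j : Fin n, (tri n a b i j : ℂ) * x j = a i * x i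
      + (if i.val + 1 < n then b i * x (i + 1) else 0)
      + (if 0 < i.val then b (i - 1) * x (i - 1) else 0) := by
  have h : ∀ j : Fin n, (tri n a b i j : ℂ) * x j = (if i.val = j.val then a i * x i else 0)
      + (if i.val + 1 = j.val then b i * x (i + 1) else 0)
      + (if i.val - 1 = j.val then
          (if 0 < i.val then b (i - 1) * x (i - 1) else 0) else 0) := by
    intro j
    unfold tri
    by_cases h1 : i.val = j.val
    · have h2 : ¬ i.val + 1 = j.val := by omega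
      by_cases h3 : 0 < i.val
      · have h4 : ¬ i.val - 1 = j.val := by omega
        rw [if_pos h1, if_pos h1, if_neg h2, if_neg h4, ← h1]; ring
      · rw [if_pos h1, if_pos h1, if_neg h2, if_neg h3, ← h1]; simp
    · by_cases h2 : i.val + 1 = j.val
      · have h4 : ¬ i.val - 1 = j.val := by omega
        rw [if_neg h1, if_pos h2, if_neg h1, if_pos h2, if_neg h4, ← h2]; ring
      · by_cases h3 : j.val + 1 = i.val
        · have h4 : i.val - 1 = j.val := by omega
          have h5 : 0 < i.val := by omega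
          rw [if_neg h1, if_neg h2, if_pos h3, if_neg h1, if_neg h2, if_pos h4, if_pos h5, h4]
          ring
        · have h4 : ¬ i.val - 1 = j.val := by omega
          rw [if_neg h1, if_neg h2, if_neg h3, if_neg h1, if_neg h2, if_neg h4]; simp
  simp only [h, Finset.sum_add_distrib]
  rw [Fin.sum_univ_eq_sum_range (fun j => if i.val = j then (a i : ℂ) * x i else 0),
    Fin.sum_univ_eq_sum_range (fun j => if i.val + 1 = j then (b i : ℂ) * x (i + 1) else 0),
    Fin.sum_univ_eq_sum_range (fun j => if i.val - 1 = j then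
      (if 0 < i.val then (b (i - 1) : ℂ) * x (i - 1) else 0) else 0)]
  have h1 : i.val - 1 < n := by omega
  simp [Finset.sum_ite_eq, h1]

/-- homogeneous solution and flux along the flat block -/
noncomputable def zw (σ : ℂ) : ℕ → ℂ × ℂ
  | 0 => (1, 1)
  | k + 1 => ((zw σ k).1 + σ * (zw σ k).2, (zw σ k).2 + ((zw σ k).1 + σ * (zw σ k).2))

lemma zw_cont (k : ℕ) : Continuous fun σ => zw σ k := by
  induction k with
  | zero => exact continuous_const
  | succ k ih => unfold zw; fun_prop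

lemma zw_zero (k : ℕ) : zw 0 k = (1, (k : ℂ) + 1) := by
  induction k with
  | zero => simp [zw]
  | succ k ih => simp [zw, ih]

noncomputable def kap (p : ℂ × ℂ) : ℂ :=
  (-210405 + 840001 / 10 * I) * p.1 + (-945013 / 25000 - 34081 / 1000 * I) * p.2
noncomputable def tt : ℂ := 4165699 / 20 - 829991 / 10 * I
noncomputable def x2 (p : ℂ × ℂ) : ℂ :=
  (-212005 + 100100 * I) * p.1 + (-212007 / 100 + 757599 / 1000 * I) * p.2
noncomputable def x1 (p : ℂ × ℂ) : ℂ :=
  (-203400 + 4020 * I) * p.1 + (-5113 / 125 + 3933 / 25 * I) * p.2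
noncomputable def x0 (p : ℂ × ℂ) : ℂ :=
  (-11405 - 198799 / 10 * I) * p.1 + (71887 / 25000 - 3281 / 1000 * I) * p.2
noncomputable def x3 (p : ℂ × ℂ) : ℂ := kap p + tt * p.1
def cr (p q : ℂ) : ℝ := p.re * q.im - p.im * q.re

lemma exists_eps (k : ℕ) (hk : (k : ℂ) + 1 = 100000) : ∃ ε : ℝ, 0 < ε ∧ ε < 1 / 100000 ∧
    0 < cr (x1 (zw (4 * ε * I) k)) (x3 (zw (4 * ε * I) k)) ∧
    0 < cr (x3 (zw (4 * ε * I) k)) (x0 (zw (4 * ε * I) k)) ∧
    0 < cr (x0 (zw (4 * ε * I) k)) (x1 (zw (4 * ε * I) k)) ∧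
    (kap (zw (4 * ε * I) k)).re < 0 := by
  have hc : Continuous fun ε : ℝ => zw (4 * ε * I) k := (zw_cont k).comp (by fun_prop)
  have h0 : zw (4 * ((0 : ℝ) : ℂ) * I) k = (1, 100000) := by simp [zw_zero, hk]
  have e1 : ∀ᶠ ε : ℝ in 𝓝 0, 0 < cr (x1 (zw (4 * ε * I) k)) (x3 (zw (4 * ε * I) k)) := by
    refine continuousAt_const.eventually_lt (Continuous.continuousAt ?_) ?_
    · unfold cr x1 x3 kap; fun_prop
    · rw [h0]; simp [cr, x1, x3, kap, tt]; norm_num
  have e2 : ∀ᶠ ε : ℝ in 𝓝 0, 0 < cr (x3 (zw (4 * ε * I) k)) (x0 (zw (4 * ε * I) k)) := by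
    refine continuousAt_const.eventually_lt (Continuous.continuousAt ?_) ?_
    · unfold cr x0 x3 kap; fun_prop
    · rw [h0]; simp [cr, x0, x3, kap, tt]; norm_num
  have e3 : ∀ᶠ ε : ℝ in 𝓝 0, 0 < cr (x0 (zw (4 * ε * I) k)) (x1 (zw (4 * ε * I) k)) := by
    refine continuousAt_const.eventually_lt (Continuous.continuousAt ?_) ?_
    · unfold cr x0 x1; fun_prop
    · rw [h0]; simp [cr, x0, x1]; norm_num
  have e4 : ∀ᶠ ε : ℝ in 𝓝 0, (kap (zw (4 * ε * I) k)).re < 0 := by
    refine ContinuousAt.eventually_lt (Continuous.continuousAt ?_) continuousAt_const ?_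
    · unfold kap; fun_prop
    · rw [h0]; simp [kap]; norm_num
  have e5 : ∀ᶠ ε : ℝ in 𝓝 0, ε < 1 / 100000 := eventually_lt_nhds (by norm_num)
  have e6 : ∀ᶠ ε : ℝ in 𝓝[>] 0, 0 < ε := self_mem_nhdsWithin
  obtain ⟨ε, h⟩ := (e6.and ((e5.and (e1.and (e2.and (e3.and e4)))).filter_mono
    nhdsWithin_le_nhds)).exists
  exact ⟨ε, h⟩

noncomputable def vv (j : ℕ) : ℝ :=
  if j = 0 then 1 / 10 else if j = 1 then 20 else if j = 2 then 100 else 1
noncomputable def bb (ε : ℝ) (j : ℕ) : ℝ :=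
  if j = 0 then ε / 20 else if j = 1 then ε / 10 else if j = 2 then 50 * ε else 1 / 4
noncomputable def aa (k : ℕ) (ε : ℝ) (j : ℕ) : ℝ :=
  if j = 0 then 1 - 10 * ε else if j = 1 then 1 - 2001 / 4000 * ε
  else if j = 2 then 1 - 13 / 25 * ε else if j = 3 then 3 / 4 - 5000 * ε
  else if j = k + 3 then 3 / 4 else 1 / 2
noncomputable def xx (k : ℕ) (σ : ℂ) (j : ℕ) : ℂ :=
  if j = 0 then x0 (zw σ k) else if j = 1 then x1 (zw σ k) else if j = 2 then x2 (zw σ k)
  else kap (zw σ k) + tt * (zw σ (k + 3 - j)).1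

lemma row_v (k : ℕ) (hk : 0 < k) (ε : ℝ) (i : Fin (k + 4)) :
    ∑ j : Fin (k + 4), tri (k + 4) (aa k ε) (bb ε) i j * vv j = vv i := by
  have h := tri_row (k + 4) (aa k ε) (bb ε) (fun j => (vv j : ℂ)) i
  have h2 : ((∑ j : Fin (k + 4), tri (k + 4) (aa k ε) (bb ε) i j * vv j : ℝ) : ℂ) = vv i := by
    push_cast
    rw [h]
    obtain ⟨i, hi⟩ := i
    rcases i with _ | _ | _ | _ | i
    · simp [aa, bb, vv]; ring
    · simp [aa, bb, vv]; ring
    · simp [aa, bb, vv]; ring
    · simp [aa, bb, vv, hk]; ring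
    · by_cases h : i + 1 = k
      · subst h; simp [aa, bb, vv]; norm_num
      · have h1 : i + 1 + 1 < k + 1 := by omega
        have h3 : ¬ i + 1 + 1 + 1 + 1 = k + 3 := by omega
        have h4 : i + 1 + 1 + 1 + 1 + 1 < k + 4 := by omega
        simp only [aa, bb, vv, if_neg h3, if_pos h4]
        simp; norm_num
  exact_mod_cast h2

lemma row_x (k : ℕ) (hk : 0 < k) (ε : ℝ) (i : Fin (k + 4)) :
    ∑ j : Fin (k + 4), (tri (k + 4) (aa k ε) (bb ε) i j : ℂ) * xx k (4 * ε * I) j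
      = (1 + ε * I) * xx k (4 * ε * I) i - ε * I * kap (zw (4 * ε * I) k) := by
  rw [tri_row]
  obtain ⟨i, hi⟩ := i
  rcases i with _ | _ | _ | _ | i
  · simp [aa, bb, xx, x0, x1, kap]
    apply Complex.ext <;> simp <;> ring
  · simp [aa, bb, xx, x0, x1, x2, kap]
    apply Complex.ext <;> simp <;> ring
  · simp [aa, bb, xx, x1, x2, kap, tt]
    apply Complex.ext <;> simp <;> ring
  · obtain ⟨k, rfl⟩ : ∃ m, k = m + 1 := ⟨k - 1, by omega⟩
    have h1 : (zw (4 * ε * I) k).1 = (zw (4 * ε * I) (k + 1)).1 * (1 + 4 * ε * I)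
        - 4 * ε * I * (zw (4 * ε * I) (k + 1)).2 := by simp only [zw]; ring
    have h2 : k + 1 + 3 - 4 = k := by omega
    simp [aa, bb, xx, h2]
    rw [h1]
    generalize zw (4 * ε * I) (k + 1) = p
    simp [x2, kap, tt]
    apply Complex.ext <;> simp <;> ring
  · by_cases h : i + 1 = k
    · subst h
      have h2 : i + 1 + 3 - (i + 1 + 1 + 1) = 1 := by omega
      simp [aa, bb, xx, h2]
      simp only [zw]; ring
    · obtain ⟨m, rfl⟩ : ∃ m, k = i + 2 + m := ⟨k - (i + 2), by omega⟩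
      have h3 : ¬ i + 1 + 1 + 1 + 1 = i + 2 + m + 3 := by omega
      have h4 : i + 1 + 1 + 1 + 1 + 1 < i + 2 + m + 4 := by omega
      have h5 : i + 2 + m + 3 - (i + 1 + 1 + 1 + 1) = m + 1 := by omega
      have h6 : i + 2 + m + 3 - (i + 1 + 1 + 1 + 1 + 1) = m := by omega
      have h7 : i + 2 + m + 3 - (i + 1 + 1 + 1) = m + 2 := by omega
      simp only [aa, bb, xx, if_neg h3, if_pos h4, h5, h6]
      simp [h7]
      generalize kap (zw (4 * ε * I) (i + 2 + m)) = κ
      simp only [zw]; ring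

lemma sum3 (k : ℕ) (f : ℕ → ℂ) (h : ∀ j, j ≠ 0 → j ≠ 1 → j ≠ 3 → f j = 0) :
    ∑ j : Fin (k + 4), f j = f 0 + f 1 + f 3 := by
  rw [Fin.sum_univ_eq_sum_range f, add_comm k 4, Finset.sum_range_add,
    Finset.sum_eq_zero (s := Finset.range k) fun j _ => h _ (by omega) (by omega) (by omega)]
  simp [Finset.sum_range_succ, h 2]

theorem result : ∃ (n : ℕ) (P : Matrix (Fin n) (Fin n) ℝ) (c : Fin n → ℝ), 1 ≤ n ∧
    P.IsSymm ∧
    (∀ r s : Fin n, r.val + 1 < s.val ∨ s.val + 1 < r.val → P r s = 0) ∧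
    (∀ r s : Fin n, r.val ≤ s.val + 1 → s.val ≤ r.val + 1 → 0 < P r s) ∧
    rho P = 1 ∧
    (∀ s : Fin n, ∑ r : Fin n with r.val + 1 = s.val ∨ r.val = s.val + 1, P r s ≤ 1) ∧
    (∀ i, 0 ≤ c i) ∧ ∑ i, c i = 1 ∧
    1 < rho ((1 - vecMulVec c 1) * P) := by
  obtain ⟨k, hk, hk0⟩ : ∃ k : ℕ, (k : ℂ) + 1 = 100000 ∧ 0 < k := ⟨99999, by norm_num, by norm_num⟩
  obtain ⟨ε, h0, h1, c0, c1, c3, hκ⟩ := exists_eps k hk
  set p := zw (4 * ε * I) k with hp
  set S := cr (x1 p) (x3 p) + cr (x3 p) (x0 p) + cr (x0 p) (x1 p) with hS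
  have hS0 : 0 < S := by positivity
  let c : ℕ → ℝ := fun j => if j = 0 then cr (x1 p) (x3 p) / S
    else if j = 1 then cr (x3 p) (x0 p) / S else if j = 3 then cr (x0 p) (x1 p) / S else 0
  have ha : ∀ j, 0 < aa k ε j := by intro j; unfold aa; split_ifs <;> linarith
  have hb : ∀ j, 0 < bb ε j := by intro j; unfold bb; split_ifs <;> linarith
  have hb2 : ∀ j, bb ε j ≤ 1 / 2 := by intro j; unfold bb; split_ifs <;> linarith
  have hsym : (tri (k + 4) (aa k ε) (bb ε)).IsSymm := by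
    ext i j
    simp only [transpose_apply, tri]
    split_ifs <;> first | rfl | omega | simp_all
  have hc1 : ∑ i : Fin (k + 4), c i = 1 := by
    have := sum3 k (fun j => (c j : ℂ)) (by intro j a b d; simp [c, a, b, d])
    have h2 : ∑ i : Fin (k + 4), c i = c 0 + c 1 + c 3 := by exact_mod_cast this
    rw [h2]; simp only [c]; norm_num; field_simp; rfl
  refine ⟨k + 4, tri (k + 4) (aa k ε) (bb ε), fun i => c i, by omega, hsym, ?_, ?_, ?_, ?_, ?_,
    hc1, ?_⟩
  · intro r s h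
    unfold tri
    rw [if_neg (by omega), if_neg (by omega), if_neg (by omega)]
  · intro r s h h'
    unfold tri
    split_ifs
    exacts [ha _, hb _, hb _, by omega]
  · refine rho_one (by omega) _ (fun j => vv j) ?_ ?_ (row_v k hk0 ε)
    · intro i j; unfold tri; split_ifs
      exacts [(ha _).le, (hb _).le, (hb _).le, le_rfl]
    · intro i; unfold vv; split_ifs <;> norm_num
  · intro s
    have h2 := tri_row (k + 4) 0 (bb ε) (fun _ => 1) s
    have h3 : ∑ r : Fin (k + 4) with r.val + 1 = s.val ∨ r.val = s.val + 1,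
        tri (k + 4) (aa k ε) (bb ε) r s = ∑ r : Fin (k + 4), tri (k + 4) 0 (bb ε) s r := by
      rw [Finset.sum_filter]
      refine Finset.sum_congr rfl fun r _ => ?_
      unfold tri
      split_ifs <;> first | rfl | omega
    have h4 : ∑ r : Fin (k + 4), tri (k + 4) 0 (bb ε) s r
        = (if s.val + 1 < k + 4 then bb ε s else 0) + (if 0 < s.val then bb ε (s - 1) else 0) := by
      apply Complex.ofReal_injective
      simp only [mul_one, Pi.zero_apply, ofReal_zero, zero_add] at h2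
      push_cast
      rw [h2]
      split_ifs <;> simp
    rw [h3, h4]
    have := hb2 s; have := hb2 (s - 1)
    split_ifs <;> linarith
  · intro i; simp only [c]; split_ifs <;> positivity
  · refine rho_gt _ hsym _ hc1 (fun j => xx k (4 * ε * I) j) (1 + ε * I) (ε * I * kap p) ?_ ?_
      (row_x k hk0 ε) ?_
    · refine mul_ne_zero (mul_ne_zero (by exact_mod_cast h0.ne') I_ne_zero) fun h => ?_
      rw [h] at hκ; simp at hκ
    · rw [← sq_lt_sq₀ (by norm_num) (norm_nonneg _), Complex.sq_norm, normSq_apply]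
      simp; positivity
    · rw [sum3 k (fun j => (c j : ℂ) * xx k (4 * ε * I) j) (by intro j a b d; simp [c, a, b, d])]
      have h3 : xx k (4 * ε * I) 3 = x3 p := by simp [xx, x3, hp]
      have h4 : xx k (4 * ε * I) 0 = x0 p := by simp [xx, hp]
      have h5 : xx k (4 * ε * I) 1 = x1 p := by simp [xx, hp]
      simp only [h3, h4, h5, c]
      have h6 : (S : ℂ) ≠ 0 := by exact_mod_cast hS0.ne'
      norm_num
      field_simp
      apply Complex.ext <;> simp [cr] <;> ring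

end Pool.Agent.Results.MP_8f6a5a_an.No
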